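import Pool.Agent.N242.TG.Defs

/-!
# Project TG (helper242), task BEAM: Gaussian beams are eigenfunctions (helper712)
-/

set_option autoImplicit false

namespace Pool.Agent.N712.TG

open Pool.Agent.N242.TG

noncomputable section

/-- second derivative of a power of a trigonometric function -/
theorem second_deriv (α β : ℂ) (k : ℕ) :
    iteratedDeriv 2 (fun t : ℝ => ((Real.cos t : ℂ) * α + (Real.sin t : ℂ) * β) ^ k) 0 =
      k * ((k - 1 : ℕ) : ℂ) * α ^ (k - 2) * β ^ 2 - k * (α ^ (k - 1) * α) := by
  have hu : ∀ t : ℝ, HasDerivAt (fun t : ℝ => (Real.cos t : ℂ) * α + (Real.sin t : ℂ) * β)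
      (-(Real.sin t : ℂ) * α + (Real.cos t : ℂ) * β) t := by
    intro t
    have h1 : HasDerivAt (fun t : ℝ => (Real.cos t : ℂ)) (-(Real.sin t : ℂ)) t := by
      have := (Real.hasDerivAt_cos t).ofReal_comp
      simpa using this
    have h2 : HasDerivAt (fun t : ℝ => (Real.sin t : ℂ)) (Real.cos t : ℂ) t :=
      (Real.hasDerivAt_sin t).ofReal_comp
    exact (h1.mul_const α).add (h2.mul_const β)
  have hv : ∀ t : ℝ, HasDerivAt (fun t : ℝ => -(Real.sin t : ℂ) * α + (Real.cos t : ℂ) * β)
      (-(Real.cos t : ℂ) * α + -(Real.sin t : ℂ) * β) t := by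
    intro t
    have h1 : HasDerivAt (fun t : ℝ => (Real.cos t : ℂ)) (-(Real.sin t : ℂ)) t := by
      have := (Real.hasDerivAt_cos t).ofReal_comp
      simpa using this
    have h2 : HasDerivAt (fun t : ℝ => (Real.sin t : ℂ)) (Real.cos t : ℂ) t :=
      (Real.hasDerivAt_sin t).ofReal_comp
    exact (h2.neg.mul_const α).add (h1.mul_const β)
  have h1 : deriv (fun t : ℝ => ((Real.cos t : ℂ) * α + (Real.sin t : ℂ) * β) ^ k) =
      fun t : ℝ => (k : ℂ) * ((Real.cos t : ℂ) * α + (Real.sin t : ℂ) * β) ^ (k - 1) *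
        (-(Real.sin t : ℂ) * α + (Real.cos t : ℂ) * β) := by
    funext t
    exact ((hu t).pow k).deriv
  rw [iteratedDeriv_succ, iteratedDeriv_one, h1]
  have h2 := ((((hu 0).pow (k - 1)).const_mul (k : ℂ)).mul (hv 0)).deriv
  refine h2.trans ?_
  simp only [Pi.pow_apply, Real.cos_zero, Real.sin_zero, Complex.ofReal_one, Complex.ofReal_zero]
  have h3 : k - 1 - 1 = k - 2 := by omega
  simp only [h3, one_mul, zero_mul, neg_zero, add_zero, zero_add]
  ring

/-- an orthonormal family of three vectors of the space is a basis: Parseval -/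
theorem parseval (F : Fin 3 → E 2) (hF : Orthonormal ℝ F) (x y : E 2) :
    inner ℝ x (F 0) * inner ℝ (F 0) y + inner ℝ x (F 1) * inner ℝ (F 1) y +
      inner ℝ x (F 2) * inner ℝ (F 2) y = inner ℝ x y := by
  have hc : Module.finrank ℝ (E 2) = Fintype.card (Fin 3) := by
    rw [finrank_euclideanSpace]
  obtain ⟨B, hB⟩ := Orthonormal.exists_orthonormalBasis_extension_of_card_eq (𝕜 := ℝ) hc
    (v := F) (s := Set.univ) (hF.comp _ Subtype.val_injective)
  have := B.sum_inner_mul_inner x y
  rw [Fin.sum_univ_three] at this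
  simpa only [hB _ (Set.mem_univ _)] using this

theorem t_BEAM : StBeam := by
  intro N hN
  have hc : Module.finrank ℝ (E 2) = Fintype.card (Fin 3) := by
    rw [finrank_euclideanSpace]
  obtain ⟨B, hB⟩ := Orthonormal.exists_orthonormalBasis_extension_of_card_eq (𝕜 := ℝ) hc
    (v := fun _ : Fin 3 => N) (s := {0}) (by
      constructor
      · intro i
        exact hN
      · intro i j hij
        exact absurd (Subsingleton.elim i j) hij)
  have hB0 : B 0 = N := hB 0 rfl
  set a : E 2 := B 1 with ha
  set b : E 2 := B 2 with hb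
  have hna : inner ℝ a a = (1 : ℝ) := by
    rw [real_inner_self_eq_norm_sq, ha, B.orthonormal.1 1]; norm_num
  have hnb : inner ℝ b b = (1 : ℝ) := by
    rw [real_inner_self_eq_norm_sq, hb, B.orthonormal.1 2]; norm_num
  have hab : inner ℝ a b = (0 : ℝ) := B.orthonormal.2 (by decide)
  refine ⟨fun x => ((inner ℝ a x : ℝ) : ℂ) + ((inner ℝ b x : ℝ) : ℂ) * Complex.I, by fun_prop,
    ?_, ?_⟩
  · intro x
    have h1 := parseval B B.orthonormal x x
    rw [hB0, ← ha, ← hb, real_inner_self_eq_norm_sq, real_inner_comm N x, real_inner_comm a x,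
      real_inner_comm b x] at h1
    rw [Complex.sq_norm, Complex.normSq_add_mul_I, ← h1]
    simp only [real_inner_comm]
    ring
  · intro k hk
    constructor
    · have h1 : ∀ c : E 2, ContDiff ℝ (⊤ : ℕ∞) (fun x : E 2 => ((inner ℝ c x : ℝ) : ℂ)) :=
        fun c => Complex.ofRealCLM.contDiff.comp (contDiff_const.inner ℝ contDiff_id)
      exact ((h1 a).add ((h1 b).mul contDiff_const)).pow k
    · intro x v hv hx
      have hF : Orthonormal ℝ ![(x : E 2), v 0, v 1] := by
        have hxn : ‖(x : E 2)‖ = 1 := by simp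
        have h01 : inner ℝ (v 0) (v 1) = (0 : ℝ) := hv.2 (by decide)
        have h10 : inner ℝ (v 1) (v 0) = (0 : ℝ) := hv.2 (by decide)
        have e0 : inner ℝ (v 0) (x : E 2) = (0 : ℝ) := by rw [real_inner_comm]; exact hx 0
        have e1 : inner ℝ (v 1) (x : E 2) = (0 : ℝ) := by rw [real_inner_comm]; exact hx 1
        constructor
        · intro i
          fin_cases i
          · exact hxn
          · exact hv.1 0
          · exact hv.1 1
        · intro i j hij
          fin_cases i <;> fin_cases j <;> first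
            | exact absurd rfl hij
            | exact hx 0
            | exact hx 1
            | exact e0
            | exact e1
            | exact h01
            | exact h10
      have p1 : inner ℝ a (x : E 2) * inner ℝ (x : E 2) a + inner ℝ a (v 0) * inner ℝ (v 0) a +
        inner ℝ a (v 1) * inner ℝ (v 1) a = inner ℝ a a := parseval _ hF a a
      have p2 : inner ℝ b (x : E 2) * inner ℝ (x : E 2) b + inner ℝ b (v 0) * inner ℝ (v 0) b +
        inner ℝ b (v 1) * inner ℝ (v 1) b = inner ℝ b b := parseval _ hF b b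
      have p3 : inner ℝ a (x : E 2) * inner ℝ (x : E 2) b + inner ℝ a (v 0) * inner ℝ (v 0) b +
        inner ℝ a (v 1) * inner ℝ (v 1) b = inner ℝ a b := parseval _ hF a b
      rw [hna, real_inner_comm a (x : E 2), real_inner_comm a (v 0), real_inner_comm a (v 1)] at p1
      rw [hnb, real_inner_comm b (x : E 2), real_inner_comm b (v 0), real_inner_comm b (v 1)] at p2
      rw [hab, real_inner_comm b (x : E 2), real_inner_comm b (v 0), real_inner_comm b (v 1)] at p3
      set α : ℂ := ((inner ℝ a (x : E 2) : ℝ) : ℂ) + ((inner ℝ b (x : E 2) : ℝ) : ℂ) * Complex.I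
        with hα
      have hs : ∀ i : Fin 2, iteratedDeriv 2 (fun t : ℝ =>
          (((inner ℝ a (Real.cos t • (x : E 2) + Real.sin t • v i) : ℝ) : ℂ) +
            ((inner ℝ b (Real.cos t • (x : E 2) + Real.sin t • v i) : ℝ) : ℂ) * Complex.I) ^ k) 0 =
          k * ((k - 1 : ℕ) : ℂ) * α ^ (k - 2) * (((inner ℝ a (v i) : ℝ) : ℂ) +
            ((inner ℝ b (v i) : ℝ) : ℂ) * Complex.I) ^ 2 - k * (α ^ (k - 1) * α) := by
        intro i
        rw [← second_deriv]
        congr 1
        funext t
        congr 1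
        rw [inner_add_right, inner_add_right, real_inner_smul_right, real_inner_smul_right,
          real_inner_smul_right, real_inner_smul_right, hα]
        push_cast
        ring
      rw [Fin.sum_univ_two]
      refine (congrArg₂ (· + ·) (hs 0) (hs 1)).trans ?_
      have q1 : (((inner ℝ a (v 0) : ℝ) : ℂ) + ((inner ℝ b (v 0) : ℝ) : ℂ) * Complex.I) ^ 2 +
          (((inner ℝ a (v 1) : ℝ) : ℂ) + ((inner ℝ b (v 1) : ℝ) : ℂ) * Complex.I) ^ 2 =
          -α ^ 2 := by
        have p1' := congrArg (fun r : ℝ => (r : ℂ)) p1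
        have p2' := congrArg (fun r : ℝ => (r : ℂ)) p2
        have p3' := congrArg (fun r : ℝ => (r : ℂ)) p3
        push_cast at p1' p2' p3'
        rw [hα]
        linear_combination p1' - p2' + 2 * Complex.I * p3' +
          ((((inner ℝ b (v 0) : ℝ) : ℂ)) ^ 2 + (((inner ℝ b (v 1) : ℝ) : ℂ)) ^ 2 +
            (((inner ℝ b (x : E 2) : ℝ) : ℂ)) ^ 2) * Complex.I_sq
      have q2 : (k : ℂ) * ((k - 1 : ℕ) : ℂ) * α ^ (k - 2) * α ^ 2 =
          (k : ℂ) * ((k : ℂ) - 1) * α ^ k := by
        rcases Nat.lt_or_ge k 2 with h | h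
        · have : k = 1 := by omega
          subst this
          simp
        · rw [mul_assoc _ (α ^ (k - 2)), ← pow_add, Nat.sub_add_cancel h, Nat.cast_sub hk]
          simp
      have q3 : α ^ (k - 1) * α = α ^ k := by
        rw [← pow_succ, Nat.sub_add_cancel hk]
      rw [q3]
      push_cast
      linear_combination (k * ((k - 1 : ℕ) : ℂ) * α ^ (k - 2)) * q1 - q2

end

end Pool.Agent.N712.TG
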